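import Mathlib

/-!
PL project, task COR, part B: divisor sums.
-/

set_option autoImplicit false

namespace Pool.Agent.W249.PL

open Finset

/-- harmonic sum -/
noncomputable def HH (X : ℕ) : ℝ := ∑ m ∈ Icc 1 X, 1 / (m : ℝ)

/-- number of divisors -/
def ta (m : ℕ) : ℕ := m.divisors.card

theorem HH_nonneg (X : ℕ) : 0 ≤ HH X := Finset.sum_nonneg fun _ _ => by positivity

theorem HH_le (X : ℕ) : HH X ≤ 1 + Real.log X := by
  have h := harmonic_le_one_add_log X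
  refine le_trans (le_of_eq ?_) h
  unfold HH
  rw [harmonic_eq_sum_Icc]
  push_cast
  exact Finset.sum_congr rfl fun i _ => by rw [one_div]

theorem HH_ge (X : ℕ) (hX : 1 ≤ X) : 1 ≤ HH X := by
  unfold HH
  have := Finset.single_le_sum (f := fun m : ℕ => 1 / (m : ℝ)) (s := Icc 1 X)
    (fun _ _ => by positivity) (mem_Icc.mpr ⟨le_rfl, hX⟩)
  simpa using this

theorem ta_mul (a b : ℕ) : ta (a * b) ≤ ta a * ta b := by
  unfold ta
  rw [Nat.divisors_mul]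
  exact Finset.card_mul_le

theorem ta_pos (m : ℕ) (hm : 1 ≤ m) : 1 ≤ ta m := by
  unfold ta
  exact Finset.card_pos.mpr ⟨1, Nat.one_mem_divisors.mpr (by omega)⟩

theorem ta_sum (k X : ℕ) : ∑ m ∈ Icc 1 X, (ta m : ℝ) ^ k / m ≤ HH X ^ (2 ^ k) := by
  induction k with
  | zero => simp [HH]
  | succ k ih =>
    have h0 : 0 ≤ ∑ m ∈ Icc 1 X, (ta m : ℝ) ^ k / m :=
      Finset.sum_nonneg fun _ _ => by positivity
    have h1 : ∑ m ∈ Icc 1 X, (ta m : ℝ) ^ (k + 1) / m ≤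
        (∑ m ∈ Icc 1 X, (ta m : ℝ) ^ k / m) * ∑ m ∈ Icc 1 X, (ta m : ℝ) ^ k / m := by
      have h2 : ∀ m ∈ Icc 1 X, (ta m : ℝ) ^ (k + 1) / m ≤
          ∑ p ∈ m.divisorsAntidiagonal,
            ((ta p.1 : ℝ) ^ k / p.1) * ((ta p.2 : ℝ) ^ k / p.2) := by
        intro m hm
        have hm1 := (mem_Icc.mp hm).1
        have h3 : (ta m : ℝ) ^ (k + 1) / m =
            ∑ p ∈ m.divisorsAntidiagonal, (ta m : ℝ) ^ k / m := by
          rw [Nat.sum_divisorsAntidiagonal (fun _ _ => (ta m : ℝ) ^ k / m), Finset.sum_const,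
            nsmul_eq_mul]
          unfold ta
          ring
        rw [h3]
        refine Finset.sum_le_sum fun p hp => ?_
        have h4 := (Nat.mem_divisorsAntidiagonal.mp hp).1
        have h5 : (ta m : ℝ) ≤ ta p.1 * ta p.2 := by
          rw [← h4]
          exact_mod_cast ta_mul p.1 p.2
        have h6 : (m : ℝ) = p.1 * p.2 := by rw [← h4]; push_cast; rfl
        calc (ta m : ℝ) ^ k / m ≤ ((ta p.1 : ℝ) * ta p.2) ^ k / m := by gcongr
          _ = _ := by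
            rw [h6, mul_pow, div_mul_div_comm]
      refine (Finset.sum_le_sum h2).trans ?_
      rw [← Finset.sum_biUnion, Finset.sum_mul_sum, ← Finset.sum_product']
      · refine Finset.sum_le_sum_of_subset_of_nonneg ?_ fun _ _ _ => by positivity
        intro p hp
        obtain ⟨m, hm, hp'⟩ := Finset.mem_biUnion.mp hp
        obtain ⟨h4, h5⟩ := Nat.mem_divisorsAntidiagonal.mp hp'
        obtain ⟨hm1, hm2⟩ := mem_Icc.mp hm
        have h6 : p.1 ≠ 0 := fun h => h5 (by rw [← h4, h, zero_mul])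
        have h7 : p.2 ≠ 0 := fun h => h5 (by rw [← h4, h, mul_zero])
        refine mem_product.mpr ⟨mem_Icc.mpr ⟨by omega, ?_⟩, mem_Icc.mpr ⟨by omega, ?_⟩⟩
        · exact (Nat.le_of_dvd (by omega) (Dvd.intro _ h4)).trans hm2
        · exact (Nat.le_of_dvd (by omega) (Dvd.intro_left _ h4)).trans hm2
      · intro m _ m' _ hne
        refine Finset.disjoint_left.mpr fun p hp hp' => hne ?_
        rw [← (Nat.mem_divisorsAntidiagonal.mp hp).1, (Nat.mem_divisorsAntidiagonal.mp hp').1]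
    refine h1.trans ?_
    calc (∑ m ∈ Icc 1 X, (ta m : ℝ) ^ k / m) * ∑ m ∈ Icc 1 X, (ta m : ℝ) ^ k / m
        ≤ HH X ^ (2 ^ k) * HH X ^ (2 ^ k) :=
          mul_le_mul ih ih h0 (pow_nonneg (HH_nonneg X) _)
      _ = HH X ^ (2 ^ (k + 1)) := by rw [← pow_add, pow_succ]; congr 1; ring

theorem ta_sum_dvd (k X l : ℕ) (hl : 1 ≤ l) :
    ∑ m ∈ (Icc 1 X).filter (fun m => l ∣ m), (ta m : ℝ) ^ k / m ≤
      (ta l : ℝ) ^ k / l * HH X ^ (2 ^ k) := by
  have h1 : (Icc 1 X).filter (fun m => l ∣ m) ⊆ (Icc 1 X).image (fun m => l * m) := by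
    intro m hm
    obtain ⟨hm1, c, hc⟩ := mem_filter.mp hm
    obtain ⟨h2, h3⟩ := mem_Icc.mp hm1
    refine mem_image.mpr ⟨c, mem_Icc.mpr ⟨?_, ?_⟩, hc.symm⟩
    · rcases Nat.eq_zero_or_pos c with h | h
      · rw [h, mul_zero] at hc; omega
      · exact h
    · calc c = 1 * c := (one_mul c).symm
        _ ≤ l * c := Nat.mul_le_mul_right c hl
        _ = m := hc.symm
        _ ≤ X := h3
  refine (Finset.sum_le_sum_of_subset_of_nonneg h1 fun _ _ _ => by positivity).trans ?_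
  rw [Finset.sum_image (fun a _ b _ h => Nat.eq_of_mul_eq_mul_left hl h)]
  calc ∑ m ∈ Icc 1 X, (ta (l * m) : ℝ) ^ k / ((l * m : ℕ) : ℝ)
      ≤ ∑ m ∈ Icc 1 X, (ta l : ℝ) ^ k / l * ((ta m : ℝ) ^ k / m) := by
        refine Finset.sum_le_sum fun m _ => ?_
        have h5 : (ta (l * m) : ℝ) ≤ ta l * ta m := by exact_mod_cast ta_mul l m
        rw [div_mul_div_comm, ← mul_pow]
        push_cast
        gcongr
    _ = (ta l : ℝ) ^ k / l * ∑ m ∈ Icc 1 X, (ta m : ℝ) ^ k / m := by rw [Finset.mul_sum]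
    _ ≤ _ := by
        gcongr
        exact ta_sum k X

/-- sums over fibres of bounded size -/
theorem fib_sum {ι : Type*} (S : Finset ι) (g : ι → ℕ) (k X l : ℕ) (hl : 1 ≤ l)
    (hg : ∀ p ∈ S, 1 ≤ g p ∧ g p ≤ X ∧ l ∣ g p)
    (hc : ∀ M, 1 ≤ M → (S.filter (fun p => g p = M)).card ≤ ta M ^ k) :
    ∑ p ∈ S, 1 / (g p : ℝ) ≤ (ta l : ℝ) ^ k / l * HH X ^ (2 ^ k) := by
  refine le_trans ?_ (ta_sum_dvd k X l hl)
  rw [← Finset.sum_fiberwise_of_maps_to (s := S) (t := (Icc 1 X).filter (fun m => l ∣ m))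
    (g := g) (fun p hp => mem_filter.mpr ⟨mem_Icc.mpr ⟨(hg p hp).1, (hg p hp).2.1⟩,
      (hg p hp).2.2⟩)]
  refine Finset.sum_le_sum fun M hM => ?_
  have hM1 : 1 ≤ M := (mem_Icc.mp (mem_filter.mp hM).1).1
  calc ∑ p ∈ S.filter (fun p => g p = M), 1 / (g p : ℝ)
      = ∑ p ∈ S.filter (fun p => g p = M), 1 / (M : ℝ) := by
        refine Finset.sum_congr rfl fun p hp => ?_
        rw [(mem_filter.mp hp).2]
    _ = ((S.filter (fun p => g p = M)).card : ℝ) / M := by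
        rw [Finset.sum_const, nsmul_eq_mul]; ring
    _ ≤ (ta M : ℝ) ^ k / M := by
        gcongr
        exact_mod_cast hc M hM1

theorem ta_prime {l : ℕ} (hl : l.Prime) : ta l = 2 := by
  unfold ta
  rw [hl.divisors, Finset.card_pair hl.one_lt.ne]

theorem ta_one : ta 1 = 1 := by
  unfold ta
  simp

theorem sum_single (X l : ℕ) (hl : 1 ≤ l) :
    ∑ m ∈ (Icc 1 X).filter (fun m => l ∣ m), 1 / (m : ℝ) ≤ HH X / l := by
  have h := ta_sum_dvd 0 X l hl
  simp only [pow_zero, pow_one] at h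
  calc _ ≤ 1 / (l : ℝ) * HH X := h
    _ = HH X / l := by ring

theorem sum_pair (z X l : ℕ) (hX : z * z ≤ X) (hl : 1 ≤ l) :
    ∑ x ∈ (Icc 1 z ×ˢ Icc 1 z).filter (fun x => l ∣ Nat.lcm x.1 x.2),
      1 / (Nat.lcm x.1 x.2 : ℝ) ≤ (ta l : ℝ) ^ 2 / l * HH X ^ 4 := by
  refine fib_sum _ (fun x : ℕ × ℕ => Nat.lcm x.1 x.2) 2 X l hl ?_ ?_
  · intro x hx
    obtain ⟨h1, h2⟩ := mem_filter.mp hx
    obtain ⟨h3, h4⟩ := mem_product.mp h1
    obtain ⟨h5, h6⟩ := mem_Icc.mp h3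
    obtain ⟨h7, h8⟩ := mem_Icc.mp h4
    refine ⟨Nat.lcm_pos h5 h7, ?_, h2⟩
    calc Nat.lcm x.1 x.2 ≤ x.1 * x.2 := Nat.le_of_dvd (Nat.mul_pos h5 h7) (Nat.lcm_dvd_mul _ _)
      _ ≤ z * z := Nat.mul_le_mul h6 h8
      _ ≤ X := hX
  · intro M hM
    calc _ ≤ (M.divisors ×ˢ M.divisors).card := by
          refine Finset.card_le_card fun x hx => ?_
          have h9 := (mem_filter.mp hx).2
          rw [mem_product, Nat.mem_divisors, Nat.mem_divisors]
          exact ⟨⟨h9 ▸ Nat.dvd_lcm_left _ _, by omega⟩, ⟨h9 ▸ Nat.dvd_lcm_right _ _, by omega⟩⟩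
      _ = ta M ^ 2 := by rw [card_product, sq]; rfl

end Pool.Agent.W249.PL
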