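import Pool.Agent.W249.PL.CA
import Pool.Agent.W249.PL.CB

/-!
PL project, task COR: correlations of divisor sums.
-/

set_option autoImplicit false

namespace Pool.Agent.W249.PL

open Finset
open Pool.Agent.H442R2
open Pool.Agent.H442R2.KF
open Pool.Agent.W23.DC
open Pool.Agent.W23.PL

/-- all four divide it -/
def Mp (p : (ℕ × ℕ) × (ℕ × ℕ)) : ℕ := m3 (qq p) p.2.1 p.2.2

theorem mem_idx {z D : ℕ} {p : (ℕ × ℕ) × (ℕ × ℕ)} (hp : p ∈ idx z D) :
    (1 ≤ p.1.1 ∧ p.1.1 ≤ z) ∧ (1 ≤ p.1.2 ∧ p.1.2 ≤ z) ∧ (1 ≤ p.2.1 ∧ p.2.1 ≤ D) ∧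
      (1 ≤ p.2.2 ∧ p.2.2 ≤ D) := by
  obtain ⟨h1, h2⟩ := mem_product.mp hp
  obtain ⟨h3, h4⟩ := mem_product.mp h1
  obtain ⟨h5, h6⟩ := mem_product.mp h2
  exact ⟨mem_Icc.mp h3, mem_Icc.mp h4, mem_Icc.mp h5, mem_Icc.mp h6⟩

theorem qq_bd {z D : ℕ} {p : (ℕ × ℕ) × (ℕ × ℕ)} (hp : p ∈ idx z D) : 1 ≤ qq p ∧ qq p ≤ z * z := by
  obtain ⟨h1, h2, -, -⟩ := mem_idx hp
  refine ⟨Nat.lcm_pos h1.1 h2.1, ?_⟩
  exact (Nat.le_of_dvd (Nat.mul_pos h1.1 h2.1) (Nat.lcm_dvd_mul _ _)).trans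
    (Nat.mul_le_mul h1.2 h2.2)

theorem Mp_bd {z D : ℕ} {p : (ℕ × ℕ) × (ℕ × ℕ)} (hp : p ∈ idx z D) :
    1 ≤ Mp p ∧ Mp p ≤ z * z * (D * D) := by
  obtain ⟨-, -, h3, h4⟩ := mem_idx hp
  obtain ⟨h5, h6⟩ := qq_bd hp
  have h7 : 0 < Nat.lcm (qq p) p.2.1 := Nat.lcm_pos h5 h3.1
  refine ⟨Nat.lcm_pos h7 h4.1, ?_⟩
  calc Mp p ≤ Nat.lcm (qq p) p.2.1 * p.2.2 :=
        Nat.le_of_dvd (Nat.mul_pos h7 h4.1) (Nat.lcm_dvd_mul _ _)
    _ ≤ (qq p * p.2.1) * p.2.2 := Nat.mul_le_mul_right _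
        (Nat.le_of_dvd (Nat.mul_pos h5 h3.1) (Nat.lcm_dvd_mul _ _))
    _ ≤ (z * z * D) * D := Nat.mul_le_mul (Nat.mul_le_mul h6 h3.2) h4.2
    _ = z * z * (D * D) := by ring

theorem dvd_Mp (p : (ℕ × ℕ) × (ℕ × ℕ)) : qq p ∣ Mp p ∧ p.2.1 ∣ Mp p ∧ p.2.2 ∣ Mp p :=
  ⟨(Nat.dvd_lcm_left _ _).trans (Nat.dvd_lcm_left _ _),
    (Nat.dvd_lcm_right _ _).trans (Nat.dvd_lcm_left _ _), Nat.dvd_lcm_right _ _⟩

/-- the sum over the quadruples with `l ∣ M` -/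
theorem sum_quad (z D l : ℕ) (hl : 1 ≤ l) :
    ∑ p ∈ (idx z D).filter (fun p => l ∣ Mp p), 1 / (Mp p : ℝ) ≤
      (ta l : ℝ) ^ 4 / l * HH (z * z * (D * D)) ^ 16 := by
  refine fib_sum _ Mp 4 (z * z * (D * D)) l hl ?_ ?_
  · intro p hp
    obtain ⟨h1, h2⟩ := mem_filter.mp hp
    exact ⟨(Mp_bd h1).1, (Mp_bd h1).2, h2⟩
  · intro M hM
    calc _ ≤ ((M.divisors ×ˢ M.divisors) ×ˢ (M.divisors ×ˢ M.divisors)).card := by
          refine Finset.card_le_card fun p hp => ?_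
          have h9 := (mem_filter.mp hp).2
          obtain ⟨k1, k2, k3⟩ := dvd_Mp p
          rw [h9] at k1 k2 k3
          have k4 : p.1.1 ∣ M := (Nat.dvd_lcm_left _ _).trans k1
          have k5 : p.1.2 ∣ M := (Nat.dvd_lcm_right _ _).trans k1
          have hM0 : M ≠ 0 := by omega
          exact mem_product.mpr ⟨mem_product.mpr ⟨Nat.mem_divisors.mpr ⟨k4, hM0⟩,
            Nat.mem_divisors.mpr ⟨k5, hM0⟩⟩, mem_product.mpr ⟨Nat.mem_divisors.mpr ⟨k2, hM0⟩,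
            Nat.mem_divisors.mpr ⟨k3, hM0⟩⟩⟩
      _ = ta M ^ 4 := by
          rw [card_product, card_product]
          show ta M * ta M * (ta M * ta M) = _
          ring

/-- `1/m` if `l ∣ m` -/
noncomputable def dv (l m : ℕ) : ℝ := if l ∣ m then 1 / (m : ℝ) else 0

theorem dv_nonneg (l m : ℕ) : 0 ≤ dv l m := by
  unfold dv; split_ifs <;> positivity

theorem prod3 (z D : ℕ) (f : ℕ × ℕ → ℝ) (g h : ℕ → ℝ) :
    ∑ p ∈ idx z D, f p.1 * (g p.2.1 * h p.2.2) =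
      (∑ x ∈ Icc 1 z ×ˢ Icc 1 z, f x) * ((∑ e ∈ Icc 1 D, g e) * ∑ e ∈ Icc 1 D, h e) := by
  unfold idx
  rw [Finset.sum_product (s := Icc 1 z ×ˢ Icc 1 z), Finset.sum_mul_sum (Icc 1 D),
    ← Finset.sum_product' (Icc 1 D) (Icc 1 D), Finset.sum_mul_sum]

/-- the three terms -/
noncomputable def tt3 (l : ℕ) (p : (ℕ × ℕ) × (ℕ × ℕ)) : ℝ :=
  dv l (qq p) * (dv l p.2.1 * (1 / (p.2.2 : ℝ))) +
    dv l (qq p) * ((1 / (p.2.1 : ℝ)) * dv l p.2.2) +
    (1 / (qq p : ℝ)) * (dv l p.2.1 * dv l p.2.2)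

theorem tt3_nonneg (l : ℕ) (p : (ℕ × ℕ) × (ℕ × ℕ)) : 0 ≤ tt3 l p := by
  unfold tt3
  have h1 := dv_nonneg l (qq p)
  have h2 := dv_nonneg l p.2.1
  have h3 := dv_nonneg l p.2.2
  positivity

theorem HH_mono {X Y : ℕ} (h : X ≤ Y) : HH X ≤ HH Y :=
  Finset.sum_le_sum_of_subset_of_nonneg (Finset.Icc_subset_Icc le_rfl h)
    fun _ _ _ => by positivity

theorem sum_tt3 (z D l : ℕ) (hz : 1 ≤ z) (hD : 1 ≤ D) (hl : l.Prime) :
    ∑ p ∈ idx z D, tt3 l p ≤ 9 * HH (z * z * (D * D)) ^ 6 / (l : ℝ) ^ 2 := by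
  set H := HH (z * z * (D * D)) with hH
  have hH0 : 0 ≤ H := HH_nonneg _
  have hl0 : (0 : ℝ) < l := by exact_mod_cast hl.pos
  have hX1 : z * z ≤ z * z * (D * D) := Nat.le_mul_of_pos_right _ (Nat.mul_pos hD hD)
  have hX2 : D ≤ z * z * (D * D) := by
    calc D ≤ D * D := Nat.le_mul_of_pos_right _ hD
      _ ≤ z * z * (D * D) := Nat.le_mul_of_pos_left _ (Nat.mul_pos hz hz)
  have hHD : HH D ≤ H := HH_mono hX2
  have hA : ∑ x ∈ Icc 1 z ×ˢ Icc 1 z, dv l (Nat.lcm x.1 x.2) ≤ 4 / l * H ^ 4 := by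
    have h := sum_pair z (z * z * (D * D)) l hX1 hl.one_lt.le
    rw [ta_prime hl, Finset.sum_filter] at h
    unfold dv
    refine h.trans (le_of_eq ?_)
    rw [← hH]
    norm_num
  have hA0 : 0 ≤ ∑ x ∈ Icc 1 z ×ˢ Icc 1 z, dv l (Nat.lcm x.1 x.2) :=
    Finset.sum_nonneg fun _ _ => dv_nonneg _ _
  have hA' : ∑ x ∈ Icc 1 z ×ˢ Icc 1 z, 1 / (Nat.lcm x.1 x.2 : ℝ) ≤ H ^ 4 := by
    have h := sum_pair z (z * z * (D * D)) 1 hX1 le_rfl
    rw [ta_one, Finset.sum_filter] at h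
    have h2 : ∀ x : ℕ × ℕ, (if 1 ∣ Nat.lcm x.1 x.2 then 1 / (Nat.lcm x.1 x.2 : ℝ) else 0) =
        1 / (Nat.lcm x.1 x.2 : ℝ) := fun x => if_pos (one_dvd _)
    simp only [h2] at h
    refine h.trans (le_of_eq ?_)
    norm_num
    rfl
  have hA'0 : 0 ≤ ∑ x ∈ Icc 1 z ×ˢ Icc 1 z, 1 / (Nat.lcm x.1 x.2 : ℝ) :=
    Finset.sum_nonneg fun _ _ => by positivity
  have hB : ∑ e ∈ Icc 1 D, dv l e ≤ H / l := by
    have h := sum_single D l hl.one_lt.le
    rw [Finset.sum_filter] at h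
    unfold dv
    refine h.trans ?_
    gcongr
  have hB0 : 0 ≤ ∑ e ∈ Icc 1 D, dv l e := Finset.sum_nonneg fun _ _ => dv_nonneg _ _
  have hC : ∑ e ∈ Icc 1 D, 1 / (e : ℝ) ≤ H := hHD
  have hC0 : 0 ≤ ∑ e ∈ Icc 1 D, 1 / (e : ℝ) := Finset.sum_nonneg fun _ _ => by positivity
  have h1 : ∑ p ∈ idx z D, tt3 l p =
      (∑ x ∈ Icc 1 z ×ˢ Icc 1 z, dv l (Nat.lcm x.1 x.2)) *
        ((∑ e ∈ Icc 1 D, dv l e) * ∑ e ∈ Icc 1 D, 1 / (e : ℝ)) +
      (∑ x ∈ Icc 1 z ×ˢ Icc 1 z, dv l (Nat.lcm x.1 x.2)) *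
        ((∑ e ∈ Icc 1 D, 1 / (e : ℝ)) * ∑ e ∈ Icc 1 D, dv l e) +
      (∑ x ∈ Icc 1 z ×ˢ Icc 1 z, 1 / (Nat.lcm x.1 x.2 : ℝ)) *
        ((∑ e ∈ Icc 1 D, dv l e) * ∑ e ∈ Icc 1 D, dv l e) := by
    rw [← prod3, ← prod3, ← prod3, ← Finset.sum_add_distrib, ← Finset.sum_add_distrib]
    rfl
  rw [h1]
  calc _ ≤ (4 / l * H ^ 4) * ((H / l) * H) + (4 / l * H ^ 4) * (H * (H / l)) +
        H ^ 4 * ((H / l) * (H / l)) := by gcongr
    _ = 9 * H ^ 6 / (l : ℝ) ^ 2 := by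
      field_simp
      ring

theorem sum_inv_sq (P : Finset ℕ) (y : ℝ) (hy : 2 ≤ y) (hP : ∀ p ∈ P, y ≤ (p : ℝ)) :
    ∑ l ∈ P, 1 / (l : ℝ) ^ 2 ≤ 2 / y := by
  obtain ⟨n, hn⟩ : ∃ n, ∀ p ∈ P, p < n := ⟨P.sup id + 1, fun p hp =>
    Nat.lt_succ_of_le (Finset.le_sup (f := id) hp)⟩
  have h1 := sum_Ioo_inv_sq_le (α := ℝ) (⌈y⌉₊ - 1) n
  have h2 : P ⊆ Ioo (⌈y⌉₊ - 1) n := by
    intro p hp
    have h3 : ⌈y⌉₊ ≤ p := Nat.ceil_le.mpr (hP p hp)
    have h4 : 0 < ⌈y⌉₊ := Nat.ceil_pos.mpr (by linarith)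
    exact mem_Ioo.mpr ⟨by omega, hn p hp⟩
  have h4 : 0 < ⌈y⌉₊ := Nat.ceil_pos.mpr (by linarith)
  have h5 : (((⌈y⌉₊ - 1 : ℕ) : ℝ)) + 1 = ⌈y⌉₊ := by
    have : ⌈y⌉₊ - 1 + 1 = ⌈y⌉₊ := by omega
    exact_mod_cast this
  rw [h5] at h1
  calc ∑ l ∈ P, 1 / (l : ℝ) ^ 2 ≤ ∑ l ∈ Ioo (⌈y⌉₊ - 1) n, 1 / (l : ℝ) ^ 2 :=
        Finset.sum_le_sum_of_subset_of_nonneg h2 fun _ _ _ => by positivity
    _ = ∑ l ∈ Ioo (⌈y⌉₊ - 1) n, ((l : ℝ) ^ 2)⁻¹ :=
        Finset.sum_congr rfl fun _ _ => one_div _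
    _ ≤ 2 / ⌈y⌉₊ := h1
    _ ≤ 2 / y := by
        have := Nat.le_ceil y
        gcongr

theorem card_L (N : ℕ) (hN : 3 ≤ N) (P : Finset ℕ) (hP : ∀ p ∈ P, p.Prime) (a a' : ℤ)
    (ha : a ≠ 0) (ha' : a' ≠ 0) (hne : a ≠ a') (h1 : |(a : ℝ)| ≤ 2 * N)
    (h2 : |(a' : ℝ)| ≤ 2 * N) :
    ((P.filter (fun l : ℕ => (l : ℤ) ∣ a * a' * (a - a'))).card : ℝ) ≤ 9 * Real.log N := by
  set L := P.filter (fun l : ℕ => (l : ℤ) ∣ a * a' * (a - a')) with hL
  set m := (a * a' * (a - a')).natAbs with hm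
  have hm0 : m ≠ 0 := Int.natAbs_ne_zero.mpr
    (mul_ne_zero (mul_ne_zero ha ha') (sub_ne_zero.mpr hne))
  have h3 : ∏ l ∈ L, l ∣ m := by
    refine Finset.prod_primes_dvd m (fun l hl => (hP l (mem_filter.mp hl).1).prime) fun l hl => ?_
    exact Int.natCast_dvd.mp (mem_filter.mp hl).2
  have h4 : 2 ^ L.card ≤ ∏ l ∈ L, l := by
    rw [← Finset.prod_const]
    exact Finset.prod_le_prod' fun l hl => (hP l (mem_filter.mp hl).1).two_le
  have h5 : 2 ^ L.card ≤ m := h4.trans (Nat.le_of_dvd (Nat.pos_of_ne_zero hm0) h3)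
  have hNr : (3 : ℝ) ≤ N := by exact_mod_cast hN
  have h6 : (m : ℝ) ≤ 16 * (N : ℝ) ^ 3 := by
    have h7 : (m : ℝ) = |(a : ℝ)| * |(a' : ℝ)| * |(a : ℝ) - a'| := by
      rw [hm, Nat.cast_natAbs]
      push_cast
      rw [abs_mul, abs_mul]
    have h8 : |(a : ℝ) - a'| ≤ 4 * N := by
      calc |(a : ℝ) - a'| ≤ |(a : ℝ)| + |(a' : ℝ)| := abs_sub _ _
        _ ≤ 4 * N := by linarith
    rw [h7]
    calc |(a : ℝ)| * |(a' : ℝ)| * |(a : ℝ) - a'| ≤ (2 * N) * (2 * N) * (4 * N) := by gcongr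
      _ = 16 * (N : ℝ) ^ 3 := by ring
  have h9 : (2 : ℝ) ^ L.card ≤ 16 * (N : ℝ) ^ 3 := by
    calc (2 : ℝ) ^ L.card ≤ (m : ℝ) := by exact_mod_cast h5
      _ ≤ _ := h6
  have hlog : 1 ≤ Real.log N := by
    rw [Real.le_log_iff_exp_le (by linarith)]
    have := Real.exp_one_lt_d9
    linarith
  have h10 := Real.log_le_log (by positivity) h9
  rw [Real.log_pow, Real.log_mul (by norm_num) (by positivity), Real.log_pow] at h10
  have h11 : Real.log 16 = 4 * Real.log 2 := by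
    rw [show (16 : ℝ) = 2 ^ 4 by norm_num, Real.log_pow]; norm_num
  rw [h11] at h10
  have h12 := Real.log_two_gt_d9
  push_cast at h10
  by_contra hcon
  push Not at hcon
  nlinarith

/-- the bound for a single pair of moduli that are not pairwise coprime -/
noncomputable def Ap (N : ℕ) (L : Finset ℕ) (p : (ℕ × ℕ) × (ℕ × ℕ)) : ℝ :=
  ∑ l ∈ L, if l ∣ Mp p then 8 * (N : ℝ) / Mp p else 0

/-- the bound for the main term -/
noncomputable def Bp (L : Finset ℕ) (p : (ℕ × ℕ) × (ℕ × ℕ)) : ℝ := ∑ l ∈ L, tt3 l p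

theorem Ap_nonneg (N : ℕ) (L : Finset ℕ) (p : (ℕ × ℕ) × (ℕ × ℕ)) : 0 ≤ Ap N L p := by
  unfold Ap
  refine Finset.sum_nonneg fun l _ => ?_
  split_ifs <;> positivity

theorem Bp_nonneg (L : Finset ℕ) (p : (ℕ × ℕ) × (ℕ × ℕ)) : 0 ≤ Bp L p :=
  Finset.sum_nonneg fun l _ => tt3_nonneg l p

theorem inv_le_Bp {L : Finset ℕ} {p : (ℕ × ℕ) × (ℕ × ℕ)} {l : ℕ} (hl : l ∈ L)
    (h : (l ∣ qq p ∧ l ∣ p.2.1) ∨ (l ∣ qq p ∧ l ∣ p.2.2) ∨ (l ∣ p.2.1 ∧ l ∣ p.2.2)) :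
    1 / ((qq p : ℝ) * p.2.1 * p.2.2) ≤ Bp L p := by
  refine le_trans ?_ (Finset.single_le_sum (f := fun l => tt3 l p)
    (fun l _ => tt3_nonneg l p) hl)
  have h1 := dv_nonneg l (qq p)
  have h2 := dv_nonneg l p.2.1
  have h3 := dv_nonneg l p.2.2
  have e0 : 1 / ((qq p : ℝ) * p.2.1 * p.2.2) =
      (1 / (qq p : ℝ)) * ((1 / (p.2.1 : ℝ)) * (1 / (p.2.2 : ℝ))) := by
    rw [one_div_mul_one_div, one_div_mul_one_div, mul_assoc]
  show _ ≤ tt3 l p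
  unfold tt3
  rcases h with h | h | h
  · have e1 : dv l (qq p) = 1 / (qq p : ℝ) := if_pos h.1
    have e2 : dv l p.2.1 = 1 / (p.2.1 : ℝ) := if_pos h.2
    rw [e1, e2, e0]
    have h4 : 0 ≤ 1 / (qq p : ℝ) * (1 / (p.2.1 : ℝ) * dv l p.2.2) := by positivity
    linarith
  · have e1 : dv l (qq p) = 1 / (qq p : ℝ) := if_pos h.1
    have e2 : dv l p.2.2 = 1 / (p.2.2 : ℝ) := if_pos h.2
    rw [e1, e2, e0]
    have h4 : 0 ≤ 1 / (qq p : ℝ) * (dv l p.2.1 * (1 / (p.2.2 : ℝ))) := by positivity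
    linarith
  · have e1 : dv l p.2.1 = 1 / (p.2.1 : ℝ) := if_pos h.1
    have e2 : dv l p.2.2 = 1 / (p.2.2 : ℝ) := if_pos h.2
    rw [e1, e2, e0]
    have h4 : 0 ≤ dv l (qq p) * (1 / (p.2.1 : ℝ) * (1 / (p.2.2 : ℝ))) := by positivity
    linarith

theorem not_cop {q e e' : ℕ} (h : ¬ (Nat.Coprime q e ∧ Nat.Coprime q e' ∧ Nat.Coprime e e')) :
    ∃ l : ℕ, l.Prime ∧ ((l ∣ q ∧ l ∣ e) ∨ (l ∣ q ∧ l ∣ e') ∨ (l ∣ e ∧ l ∣ e')) := by
  by_cases h1 : Nat.Coprime q e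
  · by_cases h2 : Nat.Coprime q e'
    · by_cases h3 : Nat.Coprime e e'
      · exact absurd ⟨h1, h2, h3⟩ h
      · obtain ⟨l, hl, k⟩ := Nat.Prime.not_coprime_iff_dvd.mp h3
        exact ⟨l, hl, Or.inr (Or.inr k)⟩
    · obtain ⟨l, hl, k⟩ := Nat.Prime.not_coprime_iff_dvd.mp h2
      exact ⟨l, hl, Or.inr (Or.inl k)⟩
  · obtain ⟨l, hl, k⟩ := Nat.Prime.not_coprime_iff_dvd.mp h1
    exact ⟨l, hl, Or.inl k⟩

theorem COR (hGS : BX.St_GS) : St_COR := by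
  obtain ⟨N₀, hN₀⟩ := cop_bd
  refine ⟨2 ^ 27, max N₀ 100, by norm_num, ?_⟩
  intro N hN z D hz hD lam hlam P y hy hP U th th' hU hth hth' a a' ha ha' hne hab hab'
  have hNN₀ : N₀ ≤ N := (le_max_left _ _).trans hN
  have hN100 : 100 ≤ N := (le_max_right _ _).trans hN
  have hN1 : 1 ≤ N := by omega
  have hN3 : 3 ≤ N := by omega
  have hNr : (100 : ℝ) ≤ N := by exact_mod_cast hN100
  have hN0 : (0 : ℝ) < N := by linarith
  have hy0 : (0 : ℝ) < y := by linarith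
  have hlog : 1 ≤ Real.log N := by
    rw [Real.le_log_iff_exp_le (by linarith)]
    have := Real.exp_one_lt_d9
    linarith
  have hU2 : 0 ≤ U ^ 2 := by positivity
  -- the size of the moduli
  set w : ℝ := (N : ℝ) ^ (1 / 20 : ℝ) with hw
  have hw0 : 0 < w := by rw [hw]; positivity
  have hw20 : w ^ 20 = N := by
    rw [hw, ← Real.rpow_natCast, ← Real.rpow_mul hN0.le]
    norm_num
  have hw1 : 1 ≤ w := by
    rw [hw]
    exact Real.one_le_rpow (by linarith) (by norm_num)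
  have hlogw : Real.log N ≤ 20 * w := by
    have h1 : Real.log N = 20 * Real.log w := by
      rw [← hw20, Real.log_pow]; norm_num
    have h2 := Real.log_le_sub_one_of_pos hw0
    rw [h1]
    linarith
  have hw15 : 20 ≤ w ^ 15 := by
    by_contra hcon
    push Not at hcon
    have h1 : (w ^ 15) ^ 4 < 20 ^ 4 := pow_lt_pow_left₀ hcon (by positivity) (by norm_num)
    have h2 : (w ^ 15) ^ 4 = (N : ℝ) ^ 3 := by rw [← hw20]; ring
    have h3 : (100 : ℝ) ^ 3 ≤ (N : ℝ) ^ 3 := pow_le_pow_left₀ (by norm_num) hNr 3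
    rw [h2] at h1
    norm_num at h1 h3
    linarith
  set X : ℕ := z * z * (D * D) with hX
  have hXr : (X : ℝ) ≤ w ^ 4 := by
    rw [hX]
    push_cast
    calc (z : ℝ) * z * (D * D) ≤ w * w * (w * w) := by gcongr
      _ = w ^ 4 := by ring
  have hXN : (X : ℝ) ≤ N := by
    rw [← hw20]
    exact hXr.trans (pow_le_pow_right₀ hw1 (by norm_num))
  have hXlog : (X : ℝ) * Real.log N ≤ N := by
    calc (X : ℝ) * Real.log N ≤ w ^ 4 * (20 * w) := by gcongr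
      _ = 20 * w ^ 5 := by ring
      _ ≤ w ^ 15 * w ^ 5 := by gcongr
      _ = N := by rw [← hw20]; ring
  -- trivial cases
  rw [expand N z D hN1 lam th th' a a', main_eq, ← Finset.sum_sub_distrib]
  set L : Finset ℕ := P.filter (fun l : ℕ => (l : ℤ) ∣ a * a' * (a - a')) with hL
  set Ls : Finset ℕ := P with hLs
  have hcf : ∀ p, |cf lam th th' p| ≤ U ^ 2 := by
    intro p
    unfold cf
    rw [abs_mul, abs_mul, abs_mul]
    calc |lam p.1.1| * |lam p.1.2| * (|th p.2.1| * |th' p.2.2|) ≤ 1 * 1 * (U * U) := by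
          gcongr
          · exact hlam.sw.bd _
          · exact hlam.sw.bd _
          · exact hth.bd _
          · exact hth'.bd _
      _ = U ^ 2 := by ring
  -- the single terms
  have hterm : ∀ p ∈ idx z D, |cf lam th th' p * BX.SE N a a' (qq p) p.2.1 p.2.2 -
      cf lam th th' p * ((N : ℝ) / (qq p * p.2.1 * p.2.2))| ≤
      U ^ 2 * (1 / (N : ℝ) ^ 5 + Ap N L p + N * Bp Ls p) := by
    intro p hp
    have hA := Ap_nonneg N L p
    have hB := Bp_nonneg Ls p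
    rw [← mul_sub, abs_mul]
    by_cases hz1 : th p.2.1 = 0
    · have : cf lam th th' p = 0 := by unfold cf; rw [hz1]; ring
      rw [this, abs_zero, zero_mul]
      positivity
    by_cases hz2 : th' p.2.2 = 0
    · have : cf lam th th' p = 0 := by unfold cf; rw [hz2]; ring
      rw [this, abs_zero, zero_mul]
      positivity
    refine mul_le_mul (hcf p) ?_ (abs_nonneg _) hU2
    obtain ⟨hq1, hq2⟩ := qq_bd hp
    obtain ⟨-, -, he, he'⟩ := mem_idx hp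
    by_cases hc : Nat.Coprime (qq p) p.2.1 ∧ Nat.Coprime (qq p) p.2.2 ∧ Nat.Coprime p.2.1 p.2.2
    · have h1 := hN₀ N hNN₀ a a' (qq p) p.2.1 p.2.2 hq1 he.1 he'.1 hc.1 hc.2.1 hc.2.2 ?_ hN3
      · have h2 : 0 ≤ (N : ℝ) * Bp Ls p := by positivity
        linarith
      · refine le_trans ?_ hXlog
        have h3 : (qq p : ℝ) * p.2.1 * p.2.2 ≤ X := by
          rw [hX]
          have h4 : qq p * p.2.1 * p.2.2 ≤ z * z * (D * D) := by
            calc qq p * p.2.1 * p.2.2 ≤ z * z * D * D :=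
                  Nat.mul_le_mul (Nat.mul_le_mul hq2 he.2) he'.2
              _ = z * z * (D * D) := by ring
          exact_mod_cast h4
        exact mul_le_mul_of_nonneg_right h3 (by linarith)
    · obtain ⟨l, hl, hl3⟩ := not_cop hc
      -- `l` is in `P`
      have hlP : l ∈ P := by
        rcases hl3 with h | h | h
        · exact (hth.supp _ hz1).2.2 l hl h.2
        · exact (hth'.supp _ hz2).2.2 l hl h.2
        · exact (hth.supp _ hz1).2.2 l hl h.1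
      have hmt : (N : ℝ) / (qq p * p.2.1 * p.2.2) ≤ N * Bp Ls p := by
        have h1 := inv_le_Bp hlP hl3
        rw [div_eq_mul_one_div]
        exact mul_le_mul_of_nonneg_left h1 hN0.le
      have hmt0 : 0 ≤ (N : ℝ) / (qq p * p.2.1 * p.2.2) := by positivity
      have hS0 := SE_nonneg N a a' (qq p) p.2.1 p.2.2
      have hS : BX.SE N a a' (qq p) p.2.1 p.2.2 ≤ Ap N L p := by
        by_cases hsol : ∃ n : ℤ, (qq p : ℤ) ∣ n ∧ (p.2.1 : ℤ) ∣ n - a ∧ (p.2.2 : ℤ) ∣ n - a'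
        · obtain ⟨n, k1, k2, k3⟩ := hsol
          obtain ⟨hM1, hM2⟩ := Mp_bd hp
          have h1 := SE_le hGS N hN1 a a' (qq p) p.2.1 p.2.2 hM1 n k1 k2 k3
          obtain ⟨d1, d2, d3⟩ := dvd_Mp p
          have hlM : l ∣ Mp p := by
            rcases hl3 with h | h | h
            · exact h.1.trans d1
            · exact h.1.trans d1
            · exact h.1.trans d2
          have hlL : l ∈ L := by
            refine mem_filter.mpr ⟨hlP, ?_⟩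
            rcases hl3 with ⟨h, h'⟩ | ⟨h, h'⟩ | ⟨h, h'⟩
            · have j1 : (l : ℤ) ∣ n := (Int.natCast_dvd_natCast.mpr h).trans k1
              have j2 : (l : ℤ) ∣ n - a := (Int.natCast_dvd_natCast.mpr h').trans k2
              have j3 : (l : ℤ) ∣ a := by
                have := dvd_sub j1 j2
                rwa [sub_sub_cancel] at this
              exact (j3.mul_right a').mul_right _
            · have j1 : (l : ℤ) ∣ n := (Int.natCast_dvd_natCast.mpr h).trans k1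
              have j2 : (l : ℤ) ∣ n - a' := (Int.natCast_dvd_natCast.mpr h').trans k3
              have j3 : (l : ℤ) ∣ a' := by
                have := dvd_sub j1 j2
                rwa [sub_sub_cancel] at this
              exact (j3.mul_left a).mul_right _
            · have j1 : (l : ℤ) ∣ n - a := (Int.natCast_dvd_natCast.mpr h).trans k2
              have j2 : (l : ℤ) ∣ n - a' := (Int.natCast_dvd_natCast.mpr h').trans k3
              have j3 : (l : ℤ) ∣ a - a' := by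
                have := dvd_sub j2 j1
                have e : n - a' - (n - a) = a - a' := by ring
                rwa [e] at this
              exact j3.mul_left _
          have hM0 : (0 : ℝ) < Mp p := by exact_mod_cast hM1
          have hMN : (Mp p : ℝ) ≤ N := le_trans (by exact_mod_cast hM2) hXN
          have h2 : (1 : ℝ) ≤ N / Mp p := by
            rw [le_div_iff₀ hM0]; linarith
          have h3 : BX.SE N a a' (qq p) p.2.1 p.2.2 ≤ 8 * (N : ℝ) / Mp p := by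
            refine h1.trans ?_
            show 4 * ((N : ℝ) / (Mp p : ℕ) + 1) ≤ _
            rw [mul_div_assoc]
            linarith
          refine h3.trans ?_
          have h4 := Finset.single_le_sum
            (f := fun l => if l ∣ Mp p then 8 * (N : ℝ) / Mp p else 0) (s := L)
            (fun l _ => by split_ifs <;> positivity) hlL
          simp only [if_pos hlM] at h4
          exact h4
        · rw [SE_zero N a a' (qq p) p.2.1 p.2.2 hsol]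
          exact hA
      have h5 : 0 ≤ 1 / (N : ℝ) ^ 5 := by positivity
      rw [abs_le]
      constructor
      · linarith
      · linarith
  refine (Finset.abs_sum_le_sum_abs _ _).trans ?_
  refine (Finset.sum_le_sum hterm).trans ?_
  rw [← Finset.mul_sum, Finset.sum_add_distrib, Finset.sum_add_distrib, ← Finset.mul_sum]
  -- trivial if the index set is empty
  rcases Nat.eq_zero_or_pos z with hz0 | hz0
  · have : idx z D = ∅ := by rw [hz0]; simp [idx]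
    rw [this]
    simp only [Finset.sum_empty, add_zero, mul_zero]
    positivity
  rcases Nat.eq_zero_or_pos D with hD0 | hD0
  · have : idx z D = ∅ := by rw [hD0]; simp [idx]
    rw [this]
    simp only [Finset.sum_empty, add_zero, mul_zero]
    positivity
  have hX1 : 1 ≤ X := Nat.mul_pos (Nat.mul_pos hz0 hz0) (Nat.mul_pos hD0 hD0)
  set H := HH X with hH
  have hH0 : 0 ≤ H := HH_nonneg _
  have hHle : H ≤ 2 * Real.log N := by
    have h1 := HH_le X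
    have h2 : Real.log X ≤ Real.log N := Real.log_le_log (by exact_mod_cast hX1) hXN
    linarith
  have hcard : ∑ _p ∈ idx z D, 1 / (N : ℝ) ^ 5 ≤ 1 := by
    rw [Finset.sum_const, nsmul_eq_mul]
    have h1 : (idx z D).card = X := by
      unfold idx
      rw [card_product, card_product, card_product, Nat.card_Icc, Nat.card_Icc]
      simp only [Nat.add_sub_cancel]
      exact hX.symm
    rw [h1, mul_one_div, div_le_one (by positivity)]
    refine hXN.trans ?_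
    calc (N : ℝ) = (N : ℝ) ^ 1 := (pow_one _).symm
      _ ≤ (N : ℝ) ^ 5 := pow_le_pow_right₀ (by linarith) (by norm_num)
  have hLc : (L.card : ℝ) ≤ 9 * Real.log N :=
    card_L N hN3 P (fun p hp => (hP p hp).1) a a' ha ha' hne hab hab'
  have hsA : ∑ p ∈ idx z D, Ap N L p ≤ 9 * Real.log N * (8 * N * (16 / y * H ^ 16)) := by
    unfold Ap
    rw [Finset.sum_comm]
    calc ∑ l ∈ L, ∑ p ∈ idx z D, (if l ∣ Mp p then 8 * (N : ℝ) / Mp p else 0)
        ≤ ∑ _l ∈ L, 8 * N * (16 / y * H ^ 16) := by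
          refine Finset.sum_le_sum fun l hl => ?_
          have hlP := (mem_filter.mp hl).1
          obtain ⟨hlp, hly⟩ := hP l hlP
          have h1 := sum_quad z D l hlp.one_lt.le
          rw [ta_prime hlp] at h1
          rw [← Finset.sum_filter]
          calc ∑ p ∈ (idx z D).filter (fun p => l ∣ Mp p), 8 * (N : ℝ) / Mp p
              = 8 * N * ∑ p ∈ (idx z D).filter (fun p => l ∣ Mp p), 1 / (Mp p : ℝ) := by
                rw [Finset.mul_sum]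
                exact Finset.sum_congr rfl fun _ _ => by rw [mul_one_div]
            _ ≤ 8 * N * (((2 : ℕ) : ℝ) ^ 4 / l * HH (z * z * (D * D)) ^ 16) := by gcongr
            _ ≤ 8 * N * (16 / y * H ^ 16) := by
                rw [← hX, ← hH]
                norm_num
                gcongr
      _ = L.card * (8 * N * (16 / y * H ^ 16)) := by
          rw [Finset.sum_const, nsmul_eq_mul]
      _ ≤ _ := by gcongr
  have hsB : ∑ p ∈ idx z D, Bp Ls p ≤ 9 * H ^ 6 * (2 / y) := by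
    unfold Bp
    rw [Finset.sum_comm]
    calc ∑ l ∈ Ls, ∑ p ∈ idx z D, tt3 l p ≤ ∑ l ∈ Ls, 9 * H ^ 6 * (1 / (l : ℝ) ^ 2) := by
          refine Finset.sum_le_sum fun l hl => ?_
          have h1 := sum_tt3 z D l hz0 hD0 (hP l hl).1
          rw [← hX, ← hH] at h1
          rwa [mul_one_div]
      _ = 9 * H ^ 6 * ∑ l ∈ Ls, 1 / (l : ℝ) ^ 2 := by rw [Finset.mul_sum]
      _ ≤ 9 * H ^ 6 * (2 / y) := by
          have := sum_inv_sq Ls y hy fun p hp => (hP p hp).2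
          gcongr
  set ℓ := Real.log N with hℓ
  have hH16 : H ^ 16 ≤ (2 * ℓ) ^ 16 := pow_le_pow_left₀ hH0 hHle 16
  have hH6 : H ^ 6 ≤ (2 * ℓ) ^ 6 := pow_le_pow_left₀ hH0 hHle 6
  have hl17 : ℓ ^ 17 ≤ ℓ ^ 20 := pow_le_pow_right₀ hlog (by norm_num)
  have hl6 : ℓ ^ 6 ≤ ℓ ^ 20 := pow_le_pow_right₀ hlog (by norm_num)
  have hfin : ∑ _p ∈ idx z D, 1 / (N : ℝ) ^ 5 + ∑ p ∈ idx z D, Ap N L p +
      N * ∑ p ∈ idx z D, Bp Ls p ≤ 2 ^ 27 * (N * ℓ ^ 20 / y + 1) := by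
    have h1 : 9 * ℓ * (8 * N * (16 / y * H ^ 16)) ≤ 75497472 * (N * ℓ ^ 20 / y) := by
      calc 9 * ℓ * (8 * N * (16 / y * H ^ 16)) ≤ 9 * ℓ * (8 * N * (16 / y * (2 * ℓ) ^ 16)) := by
            gcongr
        _ = 75497472 * (N * ℓ ^ 17 / y) := by ring
        _ ≤ _ := by gcongr
    have h2 : (N : ℝ) * (9 * H ^ 6 * (2 / y)) ≤ 1152 * (N * ℓ ^ 20 / y) := by
      calc (N : ℝ) * (9 * H ^ 6 * (2 / y)) ≤ N * (9 * (2 * ℓ) ^ 6 * (2 / y)) := by gcongr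
        _ = 1152 * (N * ℓ ^ 6 / y) := by ring
        _ ≤ _ := by gcongr
    have h3 : (N : ℝ) * ∑ p ∈ idx z D, Bp Ls p ≤ N * (9 * H ^ 6 * (2 / y)) := by gcongr
    have h4 : 0 ≤ (N : ℝ) * ℓ ^ 20 / y := by positivity
    have e27 : (2 : ℝ) ^ 27 = 134217728 := by norm_num
    rw [e27]
    linarith
  calc U ^ 2 * (∑ _p ∈ idx z D, 1 / (N : ℝ) ^ 5 + ∑ p ∈ idx z D, Ap N L p +
      N * ∑ p ∈ idx z D, Bp Ls p) ≤ U ^ 2 * (2 ^ 27 * (N * ℓ ^ 20 / y + 1)) := by gcongr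
    _ = 2 ^ 27 * U ^ 2 * (N * ℓ ^ 20 / y + 1) := by ring

end Pool.Agent.W249.PL
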