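import Pool.Agent.W23.PL.Defs
import Pool.Agent.H442R2.BX.Sv
import Pool.Agent.H442R2.BX.Ex

/-!
PL project, task COR, part A: expansion and the single terms.
-/

set_option autoImplicit false

namespace Pool.Agent.W249.PL

open Finset
open Pool.Agent.H442R2
open Pool.Agent.H442R2.KF
open Pool.Agent.W23.DC
open Pool.Agent.W23.PL
open Pool.Agent.H442R2.BX.TaskEX
open Pool.Agent.H442R2.BX.TaskSV

/-- the quadruples `(q₁, q₂, e, e')` -/
def idx (z D : ℕ) : Finset ((ℕ × ℕ) × (ℕ × ℕ)) :=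
  (Icc 1 z ×ˢ Icc 1 z) ×ˢ (Icc 1 D ×ˢ Icc 1 D)

/-- the coefficient of a quadruple -/
noncomputable def cf (lam th th' : ℕ → ℝ) (p : (ℕ × ℕ) × (ℕ × ℕ)) : ℝ :=
  lam p.1.1 * lam p.1.2 * (th p.2.1 * th' p.2.2)

/-- `lcm (q₁, q₂)` -/
def qq (p : (ℕ × ℕ) × (ℕ × ℕ)) : ℕ := Nat.lcm p.1.1 p.1.2

theorem Ev_eq (th : ℕ → ℝ) (D : ℕ) (m : ℤ) : Ev th D m = ∑ e ∈ Icc 1 D, th e * II e m := by
  unfold Ev II
  refine Finset.sum_congr rfl fun e _ => ?_
  congr 1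

theorem expand (N z D : ℕ) (hN : 1 ≤ N) (lam th th' : ℕ → ℝ) (a a' : ℤ) :
    ∑' n : ℤ, Wt N n * BX.nuS lam z n * (Ev th D (n - a) * Ev th' D (n - a')) =
      ∑ p ∈ idx z D, cf lam th th' p * BX.SE N a a' (qq p) p.2.1 p.2.2 := by
  have h1 := hasSum_sum (s := idx z D)
    (f := fun p (n : ℤ) => cf lam th th' p *
      (Wt N n * (II (qq p) n * II p.2.1 (n - a) * II p.2.2 (n - a'))))
    (a := fun p => cf lam th th' p * BX.SE N a a' (qq p) p.2.1 p.2.2)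
    (fun p _ => (hasSum_SE N hN a a' (qq p) p.2.1 p.2.2).mul_left _)
  rw [← h1.tsum_eq]
  refine tsum_congr fun n => ?_
  have h2 : BX.nuS lam z n = ∑ x ∈ Icc 1 z ×ˢ Icc 1 z,
      lam x.1 * lam x.2 * II (Nat.lcm x.1 x.2) n := by
    rw [nuS_eq, Finset.sum_product]
  have h3 : Ev th D (n - a) * Ev th' D (n - a') = ∑ x ∈ Icc 1 D ×ˢ Icc 1 D,
      (th x.1 * II x.1 (n - a)) * (th' x.2 * II x.2 (n - a')) := by
    rw [Ev_eq, Ev_eq, Finset.sum_mul_sum, Finset.sum_product]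
  rw [h2, h3, mul_assoc, Finset.sum_mul_sum, Finset.mul_sum]
  unfold idx
  rw [Finset.sum_product (s := Icc 1 z ×ˢ Icc 1 z)]
  refine Finset.sum_congr rfl fun x _ => ?_
  rw [Finset.mul_sum]
  refine Finset.sum_congr rfl fun y _ => ?_
  unfold cf qq
  ring

theorem main_eq (N z D : ℕ) (lam th th' : ℕ → ℝ) :
    (N : ℝ) * LF lam z * (hat th D * hat th' D) =
      ∑ p ∈ idx z D, cf lam th th' p * ((N : ℝ) / (qq p * p.2.1 * p.2.2)) := by
  have h2 : LF lam z = ∑ x ∈ Icc 1 z ×ˢ Icc 1 z,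
      lam x.1 * lam x.2 / (Nat.lcm x.1 x.2 : ℝ) := by
    unfold LF
    rw [Finset.sum_product]
  have h3 : hat th D * hat th' D = ∑ x ∈ Icc 1 D ×ˢ Icc 1 D,
      (th x.1 / x.1) * (th' x.2 / x.2) := by
    unfold hat
    rw [Finset.sum_mul_sum, Finset.sum_product]
  rw [h2, h3, mul_assoc, Finset.sum_mul_sum, Finset.mul_sum]
  unfold idx
  rw [Finset.sum_product (s := Icc 1 z ×ˢ Icc 1 z)]
  refine Finset.sum_congr rfl fun x _ => ?_
  rw [Finset.mul_sum]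
  refine Finset.sum_congr rfl fun y _ => ?_
  unfold cf qq
  simp only [div_eq_mul_inv, mul_inv]
  ring

/-- pairwise coprime moduli -/
theorem cop_bd : ∃ N₀ : ℕ, ∀ N : ℕ, N₀ ≤ N → ∀ (a a' : ℤ) (q d d' : ℕ), 1 ≤ q → 1 ≤ d →
    1 ≤ d' → Nat.Coprime q d → Nat.Coprime q d' → Nat.Coprime d d' →
    ((q : ℝ) * d * d') * Real.log N ≤ N → 3 ≤ N →
    |BX.SE N a a' q d d' - (N : ℝ) / (q * d * d')| ≤ 1 / (N : ℝ) ^ 5 := by
  obtain ⟨N₀, hN₀⟩ := poisson_trunc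
  refine ⟨N₀, fun N hN a a' q d d' hq hd hd' h1 h2 h3 hJ hN3 => ?_⟩
  obtain ⟨c, c1, c2, c3⟩ := crt_exists a a' q d d' h1 h2 h3
  have hm1 : 1 ≤ q * d * d' := Nat.succ_le_of_lt (by positivity)
  have hNr : (3 : ℝ) ≤ N := by exact_mod_cast hN3
  have hlog : 1 ≤ Real.log N := by
    rw [Real.le_log_iff_exp_le (by linarith)]
    have := Real.exp_one_lt_d9
    linarith
  have hqle : (q : ℝ) * d * d' ≤ (N : ℝ) ^ 3 := by
    have h4 : (q : ℝ) * d * d' ≤ N := by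
      have h5 : (0 : ℝ) ≤ (q : ℝ) * d * d' := by positivity
      nlinarith
    have h6 : (N : ℝ) ≤ (N : ℝ) ^ 3 := by
      have : (1 : ℝ) ≤ N := by linarith
      calc (N : ℝ) = (N : ℝ) ^ 1 := (pow_one _).symm
        _ ≤ (N : ℝ) ^ 3 := pow_le_pow_right₀ this (by norm_num)
    linarith
  have key := hN₀ N hN (q * d * d') hm1 (by push_cast; exact hqle) c 0 (by push_cast; linarith)
  have eSE : BX.SE N a a' q d d' =
      ∑' n : ℤ, (if ((q * d * d' : ℕ) : ℤ) ∣ n - c then Wt N n else 0) := by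
    unfold BX.SE
    refine tsum_congr fun n => ?_
    have := dvd_iff a a' c n q d d' h1 h2 h3 c1 c2 c3
    by_cases hp : ((q : ℤ) ∣ n ∧ (d : ℤ) ∣ n - a ∧ (d' : ℤ) ∣ n - a')
    · rw [if_pos hp, if_pos (this.1 hp)]
    · rw [if_neg hp, if_neg (fun h => hp (this.2 h))]
  rw [← eSE] at key
  have h0 : Icc (-((0 : ℕ) : ℤ)) ((0 : ℕ) : ℤ) = {0} := by simp
  rw [h0, Finset.sum_singleton] at key
  have h7 : ((Real.exp (-Real.pi * (((0 : ℤ) : ℝ) * N / ((q * d * d' : ℕ) : ℝ)) ^ 2) : ℝ) : ℂ) *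
      e (((0 : ℤ) : ℝ) * c / ((q * d * d' : ℕ) : ℝ)) = 1 := by
    simp [e_zero]
  rw [h7, mul_one, ← Complex.ofReal_sub, Complex.norm_real, Real.norm_eq_abs] at key
  have e0 : ((N : ℝ) / ((q * d * d' : ℕ) : ℝ)) = (N : ℝ) / (q * d * d') := by push_cast; rfl
  rw [e0] at key
  exact key

/-- `lcm (lcm (q, d), d')` -/
def m3 (q d d' : ℕ) : ℕ := Nat.lcm (Nat.lcm q d) d'

theorem SE_le (hGS : BX.St_GS) (N : ℕ) (hN : 1 ≤ N) (a a' : ℤ) (q d d' : ℕ) (hm : 1 ≤ m3 q d d')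
    (n₀ : ℤ) (h1 : (q : ℤ) ∣ n₀) (h2 : (d : ℤ) ∣ n₀ - a) (h3 : (d' : ℤ) ∣ n₀ - a') :
    BX.SE N a a' q d d' ≤ 4 * ((N : ℝ) / (m3 q d d' : ℕ) + 1) := by
  refine le_trans ?_ ((hGS N hN).2 (m3 q d d') n₀ hm)
  unfold BX.SE
  have hs := TaskS.summable_Wt N hN
  have hpos : ∀ n : ℤ, 0 < Wt N n := Wt_pos N
  refine Summable.tsum_le_tsum (fun n => ?_) ?_ ?_
  · by_cases hp : ((q : ℤ) ∣ n ∧ (d : ℤ) ∣ n - a ∧ (d' : ℤ) ∣ n - a')
    · rw [if_pos hp, if_pos]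
      obtain ⟨k1, k2, k3⟩ := hp
      have f1 : (q : ℤ) ∣ n - n₀ := dvd_sub k1 h1
      have f2 : (d : ℤ) ∣ n - n₀ := by
        have := dvd_sub k2 h2
        have e : n - a - (n₀ - a) = n - n₀ := by ring
        rwa [e] at this
      have f3 : (d' : ℤ) ∣ n - n₀ := by
        have := dvd_sub k3 h3
        have e : n - a' - (n₀ - a') = n - n₀ := by ring
        rwa [e] at this
      unfold m3
      rw [Int.natCast_dvd] at f1 f2 f3 ⊢
      exact Nat.lcm_dvd (Nat.lcm_dvd f1 f2) f3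
    · rw [if_neg hp]
      split_ifs
      · exact (hpos n).le
      · exact le_rfl
  · refine Summable.of_nonneg_of_le (fun n => ?_) (fun n => ?_) hs
    · split_ifs
      · exact (hpos n).le
      · exact le_rfl
    · split_ifs
      · exact le_rfl
      · exact (hpos n).le
  · refine Summable.of_nonneg_of_le (fun n => ?_) (fun n => ?_) hs
    · split_ifs
      · exact (hpos n).le
      · exact le_rfl
    · split_ifs
      · exact le_rfl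
      · exact (hpos n).le

theorem SE_nonneg (N : ℕ) (a a' : ℤ) (q d d' : ℕ) : 0 ≤ BX.SE N a a' q d d' := by
  unfold BX.SE
  refine tsum_nonneg fun n => ?_
  split_ifs
  · exact (Wt_pos N n).le
  · exact le_rfl

theorem SE_zero (N : ℕ) (a a' : ℤ) (q d d' : ℕ)
    (h : ¬ ∃ n : ℤ, (q : ℤ) ∣ n ∧ (d : ℤ) ∣ n - a ∧ (d' : ℤ) ∣ n - a') :
    BX.SE N a a' q d d' = 0 := by
  unfold BX.SE
  have h1 : ∀ n : ℤ, (if ((q : ℤ) ∣ n ∧ (d : ℤ) ∣ n - a ∧ (d' : ℤ) ∣ n - a') then Wt N n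
      else 0) = 0 := fun n => if_neg fun hn => h ⟨n, hn⟩
  rw [tsum_congr h1, tsum_zero]

end Pool.Agent.W249.PL
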